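import Mathlib
import Pool.Agent.Lib.Helper90.GSem.CycChar

/-!
# Frobenius elements in the absolute Galois group of `ℚ_[p]`
-/

namespace Pool.Agent.PD

open NumberField Pool.Agent.GSem Polynomial
open scoped Pointwise

variable {p : ℕ} [hp : Fact p.Prime]

theorem norm_le_one_of_isIntegral {x : PadicAlgCl p} (hx : IsIntegral ℤ_[p] x) : ‖x‖ ≤ 1 := by
  obtain ⟨P, hP, hPx⟩ := hx
  by_contra hcon
  push Not at hcon
  have h0 : P.natDegree ≠ 0 := by
    intro h
    have h1 : P = 1 := Polynomial.eq_one_of_monic_natDegree_zero hP h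
    rw [h1, eval₂_one] at hPx
    exact one_ne_zero hPx
  rw [eval₂_eq_sum_range, Finset.sum_range_succ, hP.coeff_natDegree, map_one, one_mul] at hPx
  have h1 : x ^ P.natDegree = -∑ i ∈ Finset.range P.natDegree,
      (algebraMap ℤ_[p] (PadicAlgCl p)) (P.coeff i) * x ^ i := by
    linear_combination hPx
  have h2 : ‖x ^ P.natDegree‖ ≤ ‖x‖ ^ (P.natDegree - 1) := by
    rw [h1, norm_neg]
    apply IsUltrametricDist.norm_sum_le_of_forall_le_of_nonneg (by positivity)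
    intro i hi
    rw [Finset.mem_range] at hi
    have h3 : ‖(algebraMap ℤ_[p] (PadicAlgCl p)) (P.coeff i)‖ ≤ 1 := by
      have h4 : (algebraMap ℤ_[p] (PadicAlgCl p)) (P.coeff i) =
          algebraMap ℚ_[p] (PadicAlgCl p) ((P.coeff i : ℤ_[p]) : ℚ_[p]) := rfl
      rw [h4, norm_algebraMap']
      exact (P.coeff i).2
    rw [norm_mul, norm_pow]
    calc _ ≤ 1 * ‖x‖ ^ i := by gcongr
      _ = ‖x‖ ^ i := one_mul _
      _ ≤ ‖x‖ ^ (P.natDegree - 1) := pow_le_pow_right₀ hcon.le (by omega)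
  rw [norm_pow] at h2
  have h3 : ‖x‖ ^ (P.natDegree - 1) < ‖x‖ ^ P.natDegree := pow_lt_pow_right₀ hcon (by omega)
  linarith

/-- The ring of integers of the algebraic closure. -/
noncomputable abbrev OC (p : ℕ) [Fact p.Prime] : Subalgebra ℤ_[p] (PadicAlgCl p) :=
  integralClosure ℤ_[p] (PadicAlgCl p)

/-- The maximal ideal. -/
noncomputable def maxC (p : ℕ) [Fact p.Prime] : Ideal (OC p) where
  carrier := {x | ‖(x : PadicAlgCl p)‖ < 1}
  add_mem' := by
    intro a b ha hb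
    exact (IsUltrametricDist.norm_add_le_max _ _).trans_lt (max_lt ha hb)
  zero_mem' := by
    change ‖((0 : OC p) : PadicAlgCl p)‖ < 1
    simp
  smul_mem' := by
    intro c x hx
    change ‖((c * x : OC p) : PadicAlgCl p)‖ < 1
    rw [MulMemClass.coe_mul, norm_mul]
    calc _ ≤ 1 * ‖(x : PadicAlgCl p)‖ := by
          gcongr
          exact norm_le_one_of_isIntegral c.2
      _ < 1 := by rw [one_mul]; exact hx

theorem mem_maxC {x : OC p} : x ∈ maxC p ↔ ‖(x : PadicAlgCl p)‖ < 1 := Iff.rfl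

instance : (maxC p).IsPrime := by
  refine ⟨?_, ?_⟩
  · rw [Ne, Ideal.eq_top_iff_one, mem_maxC]
    simp
  · intro x y hxy
    rw [mem_maxC, MulMemClass.coe_mul, norm_mul] at hxy
    by_contra hcon
    push Not at hcon
    rw [mem_maxC, mem_maxC, not_lt, not_lt] at hcon
    have := one_le_mul_of_one_le_of_one_le hcon.1 hcon.2
    linarith

theorem isInvariantC : Algebra.IsInvariant ℤ_[p] (OC p) Gal(PadicAlgCl p/ℚ_[p]) := by
  refine ⟨fun x hx => ?_⟩
  have h1 : ∀ g : Gal(PadicAlgCl p/ℚ_[p]), g (x : PadicAlgCl p) = x := fun g =>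
    congrArg (fun y : OC p => (y : PadicAlgCl p)) (hx g)
  have h2 : (x : PadicAlgCl p) ∈ (⊥ : IntermediateField ℚ_[p] (PadicAlgCl p)) := by
    rw [← InfiniteGalois.fixedField_bot]
    rw [IntermediateField.mem_fixedField_iff]
    intro g _
    exact h1 g
  obtain ⟨q, hq⟩ := IntermediateField.mem_bot.1 h2
  have h3 : IsIntegral ℤ_[p] q := by
    have h4 : IsIntegral ℤ_[p] (algebraMap ℚ_[p] (PadicAlgCl p) q) := by
      rw [hq]; exact x.2
    exact (isIntegral_algebraMap_iff (algebraMap ℚ_[p] (PadicAlgCl p)).injective).1 h4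
  obtain ⟨m, hm⟩ := IsIntegrallyClosed.isIntegral_iff.1 h3
  refine ⟨m, ?_⟩
  apply Subtype.ext
  rw [← hq, ← hm]
  rfl

/-- Frobenius elements exist in the absolute Galois group of `ℚ_[p]`. -/
theorem exists_local_frob (p : ℕ) [hp : Fact p.Prime] : ∃ τ : Gal(PadicAlgCl p/ℚ_[p]),
    ∀ x : PadicAlgCl p, IsIntegral ℤ_[p] x → ‖τ x - x ^ p‖ < 1 := by
  classical
  let Q : Ideal (OC p) := maxC p
  let P : Ideal ℤ_[p] := Q.under ℤ_[p]
  have hlo : Q.LiesOver P := ⟨rfl⟩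
  have hinv := isInvariantC (p := p)
  have hnp : ‖((p : ℕ) : PadicAlgCl p)‖ < 1 := by
    have h1 : ((p : ℕ) : PadicAlgCl p) = algebraMap ℚ_[p] (PadicAlgCl p) (p : ℚ_[p]) := by simp
    rw [h1, norm_algebraMap']
    exact Padic.norm_p_lt_one
  have hpQ : ((p : ℕ) : OC p) ∈ Q := by
    rw [mem_maxC]
    simpa using hnp
  have hPprime : P.IsPrime := Ideal.IsPrime.under ℤ_[p] Q
  have hP : P = IsLocalRing.maximalIdeal ℤ_[p] := by
    have h1 : IsLocalRing.maximalIdeal ℤ_[p] ≤ P := by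
      rw [PadicInt.maximalIdeal_eq_span_p, Ideal.span_singleton_le_iff_mem, Ideal.mem_comap,
        map_natCast]
      exact hpQ
    exact (Ideal.IsMaximal.eq_of_le (IsLocalRing.maximalIdeal.isMaximal ℤ_[p]) hPprime.ne_top
      h1).symm
  let _ : TopologicalSpace (OC p) := ⊥
  have : DiscreteTopology (OC p) := ⟨rfl⟩
  have hcont : ContinuousSMul Gal(PadicAlgCl p/ℚ_[p]) (OC p) := by
    rw [continuousSMul_iff_stabilizer_isOpen]
    intro x
    have h1 := stabilizer_isOpen_of_isIntegral (K := ℚ_[p]) (x : PadicAlgCl p)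
    convert! h1 using 1
    ext g
    simp only [SetLike.mem_coe, MulAction.mem_stabilizer_iff]
    constructor
    · intro h
      exact congrArg (fun y : OC p => (y : PadicAlgCl p)) h
    · intro h
      exact Subtype.ext h
  have hPmax : P.IsMaximal := by
    rw [hP]
    exact IsLocalRing.maximalIdeal.isMaximal ℤ_[p]
  let _ : Field (ℤ_[p] ⧸ P) := Ideal.Quotient.field P
  have hint : Algebra.IsIntegral ℤ_[p] (OC p) := inferInstance
  have hQmax : Q.IsMaximal := Ideal.isMaximal_of_isIntegral_of_isMaximal_comap Q hPmax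
  let _ : Field (OC p ⧸ Q) := Ideal.Quotient.field Q
  have hchar : CharP (OC p ⧸ Q) p := by
    have h0 : ((p : ℕ) : OC p ⧸ Q) = 0 := by
      have := Ideal.Quotient.eq_zero_iff_mem.2 hpQ
      rwa [map_natCast] at this
    exact (CharP.charP_iff_prime_eq_zero hp.out).2 h0
  have hexp : ExpChar (OC p ⧸ Q) p := ExpChar.prime hp.out
  have halg : Algebra.IsAlgebraic (ℤ_[p] ⧸ P) (OC p ⧸ Q) := by
    have : Algebra.IsIntegral (ℤ_[p] ⧸ P) (OC p ⧸ Q) := inferInstance
    infer_instance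
  let F : (OC p ⧸ Q) →ₐ[ℤ_[p] ⧸ P] (OC p ⧸ Q) :=
    { toRingHom := frobenius (OC p ⧸ Q) p
      commutes' := by
        intro r
        obtain ⟨m, rfl⟩ := Ideal.Quotient.mk_surjective r
        show (algebraMap (ℤ_[p] ⧸ P) (OC p ⧸ Q) (Ideal.Quotient.mk P m)) ^ p = _
        rw [← map_pow, ← map_pow]
        congr 1
        rw [Ideal.Quotient.eq, hP, ← PadicInt.ker_toZMod, RingHom.mem_ker, map_sub, map_pow,
          ZMod.pow_card, sub_self] }
  have hF : Function.Bijective F := Algebra.IsAlgebraic.algHom_bijective F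
  obtain ⟨σ, hσ⟩ := Ideal.Quotient.stabilizerHom_surjective_of_profinite
    (G := Gal(PadicAlgCl p/ℚ_[p])) P Q (AlgEquiv.ofBijective F hF)
  refine ⟨σ, fun x hx => ?_⟩
  have h1 : (σ : Gal(PadicAlgCl p/ℚ_[p])) • (⟨x, hx⟩ : OC p) - (⟨x, hx⟩ : OC p) ^ p ∈ Q := by
    rw [← Ideal.Quotient.eq]
    exact DFunLike.congr_fun hσ (Ideal.Quotient.mk Q ⟨x, hx⟩)
  exact h1

section glob

variable {Ω : Type*} [Field Ω] [CharZero Ω]

/-- The prime of the ring of algebraic integers attached to an embedding. -/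
def primeOf (ι : Ω →+* PadicAlgCl p) : Ideal (𝓞 Ω) where
  carrier := {x | ‖ι (x : Ω)‖ < 1}
  add_mem' := by
    intro a b ha hb
    change ‖ι (algebraMap (𝓞 Ω) Ω (a + b))‖ < 1
    rw [map_add, map_add]
    exact (IsUltrametricDist.norm_add_le_max _ _).trans_lt (max_lt ha hb)
  zero_mem' := by
    change ‖ι (algebraMap (𝓞 Ω) Ω 0)‖ < 1
    simp
  smul_mem' := by
    intro c x hx
    change ‖ι (algebraMap (𝓞 Ω) Ω (c * x))‖ < 1
    rw [map_mul, map_mul, norm_mul]
    have hc : IsIntegral ℤ_[p] (ι (c : Ω)) :=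
      (RingOfIntegers.isIntegral_coe c).map_of_comp_eq (Int.castRingHom ℤ_[p]) ι
        (RingHom.ext_int _ _)
    calc _ ≤ 1 * ‖ι (x : Ω)‖ := by
          gcongr
          exact norm_le_one_of_isIntegral hc
      _ < 1 := by rw [one_mul]; exact hx

theorem mem_primeOf {ι : Ω →+* PadicAlgCl p} {x : 𝓞 Ω} : x ∈ primeOf ι ↔ ‖ι (x : Ω)‖ < 1 :=
  Iff.rfl

omit [CharZero Ω] in
theorem isIntegral_emb (ι : Ω →+* PadicAlgCl p) (x : 𝓞 Ω) : IsIntegral ℤ_[p] (ι (x : Ω)) :=
  (RingOfIntegers.isIntegral_coe x).map_of_comp_eq (Int.castRingHom ℤ_[p]) ι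
    (RingHom.ext_int _ _)

theorem isPrime_primeOf (ι : Ω →+* PadicAlgCl p) : (primeOf ι).IsPrime := by
  refine ⟨?_, ?_⟩
  · rw [Ne, Ideal.eq_top_iff_one, mem_primeOf]
    simp
  · intro x y hxy
    have hxy' : ‖ι (algebraMap (𝓞 Ω) Ω (x * y))‖ < 1 := hxy
    rw [map_mul, map_mul, norm_mul] at hxy'
    by_contra hcon
    push Not at hcon
    rw [mem_primeOf, mem_primeOf, not_lt, not_lt] at hcon
    have := one_le_mul_of_one_le_of_one_le hcon.1 hcon.2
    linarith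

theorem natCast_mem_primeOf (ι : Ω →+* PadicAlgCl p) : (p : 𝓞 Ω) ∈ primeOf ι := by
  rw [mem_primeOf]
  have h1 : ι (((p : ℕ) : 𝓞 Ω) : Ω) = algebraMap ℚ_[p] (PadicAlgCl p) (p : ℚ_[p]) := by simp
  rw [h1, norm_algebraMap']
  exact Padic.norm_p_lt_one

/-- A global Frobenius element induced by a local one. -/
theorem exists_compat_frob [Normal ℚ Ω] (ι : Ω →+* PadicAlgCl p) :
    ∃ (τ : Gal(PadicAlgCl p/ℚ_[p])) (g : Gal(Ω/ℚ)), Compat ι τ g ∧
      (∀ x : 𝓞 Ω, g • x - x ^ p ∈ primeOf ι) ∧ IsFrobAt p g := by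
  obtain ⟨τ, hτ⟩ := exists_local_frob p
  obtain ⟨g, hg⟩ := exists_compat (Ω := Ω) ι τ
  have h1 : ∀ x : 𝓞 Ω, g • x - x ^ p ∈ primeOf ι := by
    intro x
    change ‖ι (algebraMap (𝓞 Ω) Ω (g • x - x ^ p))‖ < 1
    rw [map_sub, map_sub, map_pow, map_pow]
    have h2 : ι (algebraMap (𝓞 Ω) Ω (g • x)) = τ (ι (x : Ω)) := hg x
    rw [h2]
    exact hτ _ (isIntegral_emb ι x)
  exact ⟨τ, g, hg, h1, primeOf ι, isPrime_primeOf ι, natCast_mem_primeOf ι, h1⟩

end glob

end Pool.Agent.PD
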