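import Mathlib
import Pool.Agent.Lib.Helper90.GSem.CharFin
import Pool.Agent.Lib.H99.PD.LocalFrob

/-!
# Tate's theorem over a subgroup of finite index
-/

namespace Pool.Agent.PD

open NumberField Pool.Agent.GSem

section

variable {p : ℕ} [hp : Fact p.Prime] {Ω : Type*} [Field Ω] [CharZero Ω] [IsAlgClosed Ω]
  [Normal ℚ Ω]

omit [IsAlgClosed Ω] in
/-- The restriction homomorphism. -/
theorem exists_resHom (ι : Ω →+* PadicAlgCl p) :
    ∃ r : Gal(PadicAlgCl p/ℚ_[p]) →* Gal(Ω/ℚ), ∀ σ, Compat ι σ (r σ) := by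
  choose r hr using fun σ => exists_compat (Ω := Ω) ι σ
  have huniq : ∀ σ g, Compat ι σ g → g = r σ := by
    intro σ g hg
    apply AlgEquiv.ext
    intro x
    apply ι.injective
    rw [hg, hr]
  refine ⟨⟨⟨r, ?_⟩, ?_⟩, hr⟩
  · exact (huniq 1 1 (fun x => rfl)).symm
  · intro σ τ
    refine (huniq (σ * τ) (r σ * r τ) (fun x => ?_)).symm
    rw [AlgEquiv.mul_apply, AlgEquiv.mul_apply, hr σ, hr τ]

omit [IsAlgClosed Ω] [Normal ℚ Ω] in
theorem compat_unique {ι : Ω →+* PadicAlgCl p} {σ : Gal(PadicAlgCl p/ℚ_[p])} {g g' : Gal(Ω/ℚ)}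
    (h : Compat ι σ g) (h' : Compat ι σ g') : g = g' := by
  apply AlgEquiv.ext
  intro x
  apply ι.injective
  rw [h, h']

theorem galC_ne_zero (σ : Gal(PadicAlgCl p/ℚ_[p])) {c : ℂ_[p]} (hc : c ≠ 0) : galC σ c ≠ 0 := by
  intro h
  rw [← norm_eq_zero, norm_galC, norm_eq_zero] at h
  exact hc h

omit [IsAlgClosed Ω] in
/-- **Norm trick.** -/
theorem exists_norm (ι : Ω →+* PadicAlgCl p) (Γ : Subgroup Gal(Ω/ℚ)) [Γ.FiniteIndex]
    (ψ : Gal(Ω/ℚ) →* ℤ_[p]ˣ) (c : ℂ_[p]) (hc : c ≠ 0)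
    (h : ∀ σ g, Compat ι σ g → g ∈ Γ →
      galC σ c = algebraMap ℚ_[p] ℂ_[p] (toQ (ψ g)) * c) :
    ∃ k : ℕ, 0 < k ∧ ∃ c' : ℂ_[p], c' ≠ 0 ∧ ∀ σ g, Compat ι σ g →
      galC σ c' = algebraMap ℚ_[p] ℂ_[p] (toQ (ψ g) ^ k) * c' := by
  classical
  obtain ⟨r, hr⟩ := exists_resHom (Ω := Ω) ι
  let S : Subgroup Gal(PadicAlgCl p/ℚ_[p]) := Γ.comap r
  have hS : S.FiniteIndex := by
    refine ⟨?_⟩
    rw [Subgroup.index_comap]
    exact (inferInstance : (Γ.subgroupOf r.range).FiniteIndex).index_ne_zero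
  let X := Gal(PadicAlgCl p/ℚ_[p]) ⧸ S
  have hX : Finite X := Subgroup.finite_quotient_of_finiteIndex
  let _ : Fintype X := Fintype.ofFinite X
  let a : Gal(PadicAlgCl p/ℚ_[p]) → ℂ_[p] := fun τ => algebraMap ℚ_[p] ℂ_[p] (toQ (ψ (r τ)))
  have ha0 : ∀ τ, a τ ≠ 0 := by
    intro τ
    change algebraMap ℚ_[p] ℂ_[p] (toQ (ψ (r τ))) ≠ 0
    rw [Ne, map_eq_zero]
    exact toQ_ne_zero _
  have hamul : ∀ σ τ, a (σ * τ) = a σ * a τ := by
    intro σ τ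
    change algebraMap ℚ_[p] ℂ_[p] (toQ (ψ (r (σ * τ)))) = _
    rw [map_mul, map_mul, map_mul, map_mul]
  have hagal : ∀ σ τ, galC σ (a τ) = a τ := fun σ τ => galC_algebraMap σ _
  let u : Gal(PadicAlgCl p/ℚ_[p]) → ℂ_[p] := fun τ => (a τ)⁻¹ * galC τ c
  have hu0 : ∀ τ, u τ ≠ 0 := fun τ => mul_ne_zero (inv_ne_zero (ha0 τ)) (galC_ne_zero τ hc)
  have hucoset : ∀ τ δ, δ ∈ S → u (τ * δ) = u τ := by
    intro τ δ hδ
    have h1 : galC δ c = a δ * c := h δ (r δ) (hr δ) hδ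
    change (a (τ * δ))⁻¹ * galC (τ * δ) c = (a τ)⁻¹ * galC τ c
    rw [galC_mul, h1, map_mul, hagal, hamul, mul_inv]
    have := ha0 δ
    have := ha0 τ
    field_simp
  have huσ : ∀ σ τ, galC σ (u τ) = a σ * u (σ * τ) := by
    intro σ τ
    change galC σ ((a τ)⁻¹ * galC τ c) = a σ * ((a (σ * τ))⁻¹ * galC (σ * τ) c)
    rw [map_mul, map_inv₀, hagal, galC_mul, hamul, mul_inv]
    have := ha0 σ
    field_simp
  have hout : ∀ (σ : Gal(PadicAlgCl p/ℚ_[p])) (x : X), u (σ * x.out) = u (σ • x).out := by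
    intro σ x
    have h1 : (σ * x.out)⁻¹ * (σ • x).out ∈ S := by
      rw [← QuotientGroup.eq, QuotientGroup.out_eq', ← smul_eq_mul, ← MulAction.Quotient.coe_smul_out]
    have h2 := hucoset (σ * x.out) _ h1
    rw [mul_inv_cancel_left] at h2
    exact h2.symm
  refine ⟨Fintype.card X, Fintype.card_pos, ∏ x : X, u x.out,
    Finset.prod_ne_zero_iff.2 fun x _ => hu0 _, ?_⟩
  intro σ g hg
  have hgr : g = r σ := compat_unique hg (hr σ)
  rw [map_prod]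
  have h1 : ∀ x : X, galC σ (u x.out) = a σ * u (σ • x).out := fun x => by rw [huσ, hout]
  rw [Finset.prod_congr rfl fun x _ => h1 x, Finset.prod_mul_distrib, Finset.prod_const,
    Finset.card_univ, map_pow, hgr]
  congr 1
  exact Fintype.prod_equiv (MulAction.toPerm σ) _ _ fun x => rfl

/-- **Tate**, over a subgroup of finite index. -/
theorem exists_ne_twist_sub (ι : Ω →+* PadicAlgCl p) (Γ : Subgroup Gal(Ω/ℚ)) [Γ.FiniteIndex]
    (c : ℂ_[p]) (hc : c ≠ 0) (m : ℤ) (hm : m ≠ 0) :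
    ∃ (σ : Gal(PadicAlgCl p/ℚ_[p])) (g : Gal(Ω/ℚ)), Compat ι σ g ∧ g ∈ Γ ∧
      galC σ c ≠ algebraMap ℚ_[p] ℂ_[p] (toQ (cyc p Ω g) ^ m) * c := by
  by_contra hcon
  push Not at hcon
  obtain ⟨k, hk, c', hc', h⟩ := exists_norm ι Γ ((cyc p Ω) ^ m) c hc (by
    intro σ g hg hgΓ
    rw [hcon σ g hg hgΓ]
    congr 2
    have : ((cyc p Ω) ^ m) g = (cyc p Ω g) ^ m := rfl
    rw [this, map_zpow])
  obtain ⟨σ, g, hg, hne⟩ := exists_ne_twist ι c' hc' (m * k)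
    (mul_ne_zero hm (by exact_mod_cast hk.ne'))
  apply hne
  rw [h σ g hg]
  congr 2
  have : ((cyc p Ω) ^ m) g = (cyc p Ω g) ^ m := rfl
  rw [this, map_zpow, zpow_mul, zpow_natCast]

end

end Pool.Agent.PD
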