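import Mathlib
import Pool.Agent.Lib.Helper95.Ord.Density

/-!
# Frobenius' density theorem, with positive lower Dirichlet density
-/

open Set Module NumberField Filter Topology Pool.Agent.GSem Pool.Agent.Lib.H59 Pool.Agent.Ord
open scoped Pointwise

noncomputable section

namespace Pool.Agent.PD

variable {Ω : Type*} [Field Ω] [CharZero Ω] [IsAlgClosure ℚ Ω]

/-- The primes all of whose Frobenius elements have a conjugate generating the same subgroup of
`G / N` as `y`. -/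
def frobSet (N : Subgroup Gal(Ω/ℚ)) [N.Normal] (y : Gal(Ω/ℚ)) : Set ℕ :=
  {p | p.Prime ∧ ∀ φ : Gal(Ω/ℚ), IsFrobAt p φ →
    ∃ g : Gal(Ω/ℚ), IsGen (y : Gal(Ω/ℚ) ⧸ N) ((g⁻¹ * φ * g : Gal(Ω/ℚ)) : Gal(Ω/ℚ) ⧸ N)}

/-- The general term of the sum over a set of primes. -/
def tterm (T : Set ℕ) (σ : ℝ) : ℕ → ℝ :=
  (T ∩ {p | p.Prime}).indicator fun p => (p : ℝ) ^ (-(1 + σ))

theorem tterm_nonneg (T : Set ℕ) (σ : ℝ) (p : ℕ) : 0 ≤ tterm T σ p :=
  indicator_nonneg (fun _ _ => by positivity) _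

theorem summable_tterm (T : Set ℕ) {σ : ℝ} (hσ : 0 < σ) : Summable (tterm T σ) := by
  have h1 : Summable fun p : ℕ => (p : ℝ) ^ (-(1 + σ)) := by
    rw [Real.summable_nat_rpow]
    linarith
  exact h1.indicator _

theorem tendsto_log_inv : Tendsto (fun σ : ℝ => Real.log (1 / σ)) (𝓝[>] 0) atTop := by
  have h1 : Tendsto (fun σ : ℝ => 1 / σ) (𝓝[>] 0) atTop := by
    simpa [one_div] using tendsto_inv_nhdsGT_zero (𝕜 := ℝ)
  exact Real.tendsto_log_atTop.comp h1

/-- **Frobenius' density theorem**: the set `frobSet N y` has positive lower Dirichlet density. -/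
theorem frobSet_density (N : Subgroup Gal(Ω/ℚ)) [N.Normal] (hN : IsOpen (N : Set Gal(Ω/ℚ)))
    (y : Gal(Ω/ℚ)) : ∃ δ : ℝ, 0 < δ ∧ ∃ C : ℝ, ∀ᶠ σ : ℝ in 𝓝[>] 0,
      δ * Real.log (1 / σ) - C ≤ ∑' p, tterm (frobSet N y) σ p := by
  classical
  have hfinG := finite_quotient N hN
  have : Fintype (Gal(Ω/ℚ) ⧸ N) := Fintype.ofFinite _
  set yb : Gal(Ω/ℚ) ⧸ N := (y : Gal(Ω/ℚ) ⧸ N) with hyb
  set n := orderOf yb with hn
  let C : ℕ → Subgroup (Gal(Ω/ℚ) ⧸ N) := fun d => Subgroup.zpowers (yb ^ d)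
  have hNF : ∀ d, NumberField (fld N (C d)) := fun d => numberField_fld N (C d) hN
  let D := n.divisors
  let μ : ℕ → ℤ := fun d => ArithmeticFunction.moebius d
  let T := frobSet N y
  let k : ℕ := Nat.card (Gal(Ω/ℚ) ⧸ N)
  have hk : 0 < k := Nat.card_pos
  -- bounds
  choose bd hbd using fun d => exists_bound_degOne_eq Ω (fld N (C d))
  let B : ℕ := D.sup bd
  -- the combination for large primes
  have hcomb : ∀ p : ℕ, B < p → p.Prime →
      ∑ d ∈ D, (μ d : ℝ) * Nat.card (C d) * degOne (fld N (C d)) p ≤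
        k * (if p ∈ T then 1 else 0) := by
    intro p hp hpp
    obtain ⟨φ, hφ, hφT⟩ : ∃ φ : Gal(Ω/ℚ), IsFrobAt p φ ∧ (p ∉ T → ∀ g : Gal(Ω/ℚ),
        ¬ IsGen (y : Gal(Ω/ℚ) ⧸ N) ((g⁻¹ * φ * g : Gal(Ω/ℚ)) : Gal(Ω/ℚ) ⧸ N)) := by
      by_cases hpT : p ∈ T
      · obtain ⟨φ, hφ⟩ := exists_frob (Ω := Ω) hpp
        exact ⟨φ, hφ, fun h => absurd hpT h⟩
      · have h1 : ¬ ∀ φ : Gal(Ω/ℚ), IsFrobAt p φ → ∃ g : Gal(Ω/ℚ),
            IsGen (y : Gal(Ω/ℚ) ⧸ N) ((g⁻¹ * φ * g : Gal(Ω/ℚ)) : Gal(Ω/ℚ) ⧸ N) :=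
          fun h => hpT ⟨hpp, h⟩
        push Not at h1
        obtain ⟨φ, hφ, h2⟩ := h1
        exact ⟨φ, hφ, fun _ => h2⟩
    have h1 : ∀ d ∈ D, ((Nat.card (C d) * degOne (fld N (C d)) p : ℕ) : ℤ) =
        ∑ x : Gal(Ω/ℚ) ⧸ N, if x⁻¹ * (φ : Gal(Ω/ℚ) ⧸ N) * x ∈ C d then (1 : ℤ) else 0 := by
      intro d hd
      have hb : bd d < p := by
        have : bd d ≤ D.sup bd := Finset.le_sup hd
        exact lt_of_le_of_lt this hp
      rw [hbd d p hb hpp φ hφ, ← card_conj_mem N (C d) hN φ, Nat.card_eq_fintype_card,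
        Fintype.card_subtype, Finset.card_filter]
      push_cast
      rfl
    have h2 : ∑ d ∈ D, μ d * ((Nat.card (C d) * degOne (fld N (C d)) p : ℕ) : ℤ) ≤
        k * (if p ∈ T then 1 else 0) := by
      rw [Finset.sum_congr rfl fun d hd => by rw [h1 d hd, Finset.mul_sum]]
      rw [Finset.sum_comm]
      have h3 : ∀ x : Gal(Ω/ℚ) ⧸ N, ∑ d ∈ D, μ d *
          (if x⁻¹ * (φ : Gal(Ω/ℚ) ⧸ N) * x ∈ C d then (1 : ℤ) else 0) ≤
          if p ∈ T then 1 else 0 := by
        intro x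
        have h3 := sum_moebius_zpowers yb (x⁻¹ * (φ : Gal(Ω/ℚ) ⧸ N) * x)
        have h3' : ∑ d ∈ D, μ d *
          (if x⁻¹ * (φ : Gal(Ω/ℚ) ⧸ N) * x ∈ C d then (1 : ℤ) else 0) =
          if IsGen yb (x⁻¹ * (φ : Gal(Ω/ℚ) ⧸ N) * x) then 1 else 0 := h3
        rw [h3']
        by_cases hpT : p ∈ T
        · rw [if_pos hpT]
          split_ifs <;> norm_num
        · rw [if_neg hpT]
          have h4 : ¬ IsGen yb (x⁻¹ * (φ : Gal(Ω/ℚ) ⧸ N) * x) := by
            intro h5
            obtain ⟨g, rfl⟩ := QuotientGroup.mk_surjective x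
            refine hφT hpT g ?_
            rw [QuotientGroup.mk_mul, QuotientGroup.mk_mul, QuotientGroup.mk_inv]
            exact h5
          rw [if_neg h4]
      refine (Finset.sum_le_sum fun x _ => h3 x).trans ?_
      rw [Finset.sum_const, Finset.card_univ, nsmul_eq_mul]
      have : (Fintype.card (Gal(Ω/ℚ) ⧸ N) : ℤ) = (k : ℤ) := by
        rw [← Nat.card_eq_fintype_card]
      rw [this]
    have h3 : ((∑ d ∈ D, μ d * ((Nat.card (C d) * degOne (fld N (C d)) p : ℕ) : ℤ) : ℤ) : ℝ) ≤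
        ((k * (if p ∈ T then 1 else 0) : ℤ) : ℝ) := by
      exact_mod_cast h2
    have h4 : ((k * (if p ∈ T then 1 else 0) : ℤ) : ℝ) = k * (if p ∈ T then 1 else 0) := by
      push_cast
      rfl
    rw [h4] at h3
    refine le_trans (le_of_eq ?_) h3
    push_cast
    refine Finset.sum_congr rfl fun d _ => ?_
    ring
  -- the total weight is positive
  have hpos : (1 : ℝ) ≤ ∑ d ∈ D, (μ d : ℝ) * Nat.card (C d) := by
    have h1 : ∀ d, ((Nat.card (C d) : ℕ) : ℤ) =
        ∑ x : Gal(Ω/ℚ) ⧸ N, if x ∈ C d then (1 : ℤ) else 0 := by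
      intro d
      rw [Nat.card_eq_fintype_card, ← Finset.card_univ]
      have : Fintype.card (C d) = (Finset.univ.filter fun x => x ∈ C d).card := by
        rw [← Fintype.card_subtype]
      rw [Finset.card_univ, this, Finset.card_filter]
      push_cast
      rfl
    have h2 : (1 : ℤ) ≤ ∑ d ∈ D, μ d * ((Nat.card (C d) : ℕ) : ℤ) := by
      rw [Finset.sum_congr rfl fun d _ => by rw [h1 d, Finset.mul_sum]]
      rw [Finset.sum_comm]
      have h3 : ∀ x : Gal(Ω/ℚ) ⧸ N, ∑ d ∈ D, μ d * (if x ∈ C d then (1 : ℤ) else 0) =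
          if IsGen yb x then 1 else 0 := fun x => sum_moebius_zpowers yb x
      rw [Finset.sum_congr rfl fun x _ => h3 x]
      have h4 : (if IsGen yb yb then (1 : ℤ) else 0) ≤
          ∑ x : Gal(Ω/ℚ) ⧸ N, if IsGen yb x then (1 : ℤ) else 0 :=
        Finset.single_le_sum (f := fun x => if IsGen yb x then (1 : ℤ) else 0)
          (fun x _ => by positivity) (Finset.mem_univ yb)
      rw [if_pos ⟨1, Nat.coprime_one_left _, (pow_one _).symm⟩] at h4
      exact h4
    have h3 : ((1 : ℤ) : ℝ) ≤ ((∑ d ∈ D, μ d * ((Nat.card (C d) : ℕ) : ℤ) : ℤ) : ℝ) := by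
      exact_mod_cast h2
    push_cast at h3
    exact h3
  -- the analytic part
  choose Cc hCc using fun d => psum_bounds (fld N (C d))
  have hev : ∀ᶠ σ : ℝ in 𝓝[>] 0, ∀ d ∈ D, Summable (pterm (fld N (C d)) σ) ∧
      |psum (fld N (C d)) σ - Real.log (1 / σ)| ≤ Cc d := by
    rw [Filter.eventually_all_finset]
    intro d _
    exact hCc d
  -- upper bound for the combination
  let M : ℝ := ∑ p ∈ Finset.range (B + 1), ∑ d ∈ D, |(μ d : ℝ)| * Nat.card (C d) *
    degOne (fld N (C d)) p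
  let M' : ℝ := ∑ d ∈ D, |(μ d : ℝ)| * Nat.card (C d) * |Cc d|
  refine ⟨(k : ℝ)⁻¹, by positivity, (k : ℝ)⁻¹ * (M + M'), ?_⟩
  have hlt : ∀ᶠ σ : ℝ in 𝓝[>] 0, σ < 1 :=
    (eventually_lt_nhds (by norm_num : (0 : ℝ) < 1)).filter_mono nhdsWithin_le_nhds
  filter_upwards [hev, hlt, self_mem_nhdsWithin] with σ hσ hσ1 hσ0
  have hσ0' : (0 : ℝ) < σ := hσ0
  have hlog0 : 0 ≤ Real.log (1 / σ) := by
    apply Real.log_nonneg
    rw [le_div_iff₀ hσ0']
    linarith
  have hsT := summable_tterm T hσ0'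
  have h1 : ∑ d ∈ D, (μ d : ℝ) * Nat.card (C d) * psum (fld N (C d)) σ ≤
      M + k * ∑' p, tterm T σ p := by
    have hsd : ∀ d ∈ D, Summable fun p => (μ d : ℝ) * Nat.card (C d) * pterm (fld N (C d)) σ p :=
      fun d hd => (hσ d hd).1.mul_left _
    have h2 : ∑ d ∈ D, (μ d : ℝ) * Nat.card (C d) * psum (fld N (C d)) σ =
        ∑' p, ∑ d ∈ D, (μ d : ℝ) * Nat.card (C d) * pterm (fld N (C d)) σ p := by
      rw [Summable.tsum_finsetSum hsd]
      refine Finset.sum_congr rfl fun d _ => ?_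
      rw [tsum_mul_left]
      rfl
    rw [h2]
    let m : ℕ → ℝ := fun p => if p ∈ Finset.range (B + 1) then
      ∑ d ∈ D, |(μ d : ℝ)| * Nat.card (C d) * degOne (fld N (C d)) p else 0
    have hmz : ∀ p ∉ Finset.range (B + 1), m p = 0 := fun p hp => if_neg hp
    have hms : Summable m := summable_of_ne_finset_zero hmz
    have hmt : ∑' p, m p = M := by
      rw [tsum_eq_sum hmz]
      refine Finset.sum_congr rfl fun p hp => if_pos hp
    rw [← hmt, ← tsum_mul_left, ← Summable.tsum_add hms (hsT.mul_left _)]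
    refine Summable.tsum_le_tsum ?_ (summable_sum hsd) (hms.add (hsT.mul_left _))
    intro p
    have hT0 := tterm_nonneg T σ p
    by_cases hp : p ∈ Finset.range (B + 1)
    · have h9 : ∑ d ∈ D, (μ d : ℝ) * Nat.card (C d) * pterm (fld N (C d)) σ p ≤ m p := by
        simp only [m, if_pos hp]
        refine Finset.sum_le_sum fun d _ => ?_
        have h5 : pterm (fld N (C d)) σ p ≤ degOne (fld N (C d)) p := by
          unfold pterm
          split_ifs with hpp
          · have h6 : (p : ℝ) ^ (-(1 + σ)) ≤ 1 := by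
              apply Real.rpow_le_one_of_one_le_of_nonpos
              · exact_mod_cast hpp.one_le
              · linarith
            have h7 : (0 : ℝ) ≤ degOne (fld N (C d)) p := by positivity
            nlinarith
          · positivity
        have h8 : 0 ≤ pterm (fld N (C d)) σ p := pterm_nonneg _ _ _
        calc (μ d : ℝ) * Nat.card (C d) * pterm (fld N (C d)) σ p
            ≤ |(μ d : ℝ)| * Nat.card (C d) * pterm (fld N (C d)) σ p := by
              gcongr
              exact le_abs_self _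
          _ ≤ _ := by gcongr
      have h10 : 0 ≤ (k : ℝ) * tterm T σ p := by positivity
      linarith
    · rw [hmz p hp, zero_add]
      rw [Finset.mem_range, not_lt] at hp
      by_cases hpp : p.Prime
      · have h4 : ∀ d ∈ D, (μ d : ℝ) * Nat.card (C d) * pterm (fld N (C d)) σ p =
            ((μ d : ℝ) * Nat.card (C d) * degOne (fld N (C d)) p) * (p : ℝ) ^ (-(1 + σ)) := by
          intro d _
          unfold pterm
          rw [if_pos hpp]
          ring
        rw [Finset.sum_congr rfl h4, ← Finset.sum_mul]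
        have h5 := hcomb p (by omega) hpp
        have h6 : (0 : ℝ) ≤ (p : ℝ) ^ (-(1 + σ)) := by positivity
        refine (mul_le_mul_of_nonneg_right h5 h6).trans (le_of_eq ?_)
        by_cases hpT : p ∈ T
        · rw [if_pos hpT, tterm, indicator_of_mem (show p ∈ T ∩ {p | p.Prime} from ⟨hpT, hpp⟩)]
          ring
        · rw [if_neg hpT, tterm, indicator_of_notMem (fun h => hpT h.1)]
          ring
      · rw [Finset.sum_eq_zero]
        · positivity
        · intro d _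
          unfold pterm
          rw [if_neg hpp, mul_zero]
  have h2 : (∑ d ∈ D, (μ d : ℝ) * Nat.card (C d)) * Real.log (1 / σ) - M' ≤
      ∑ d ∈ D, (μ d : ℝ) * Nat.card (C d) * psum (fld N (C d)) σ := by
    have h3 : ∀ d ∈ D, (μ d : ℝ) * Nat.card (C d) * Real.log (1 / σ) -
        |(μ d : ℝ)| * Nat.card (C d) * |Cc d| ≤
        (μ d : ℝ) * Nat.card (C d) * psum (fld N (C d)) σ := by
      intro d hd
      have h4 := (hσ d hd).2.trans (le_abs_self _)
      have h5 : |(μ d : ℝ) * Nat.card (C d) * (psum (fld N (C d)) σ - Real.log (1 / σ))| ≤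
          |(μ d : ℝ)| * Nat.card (C d) * |Cc d| := by
        rw [abs_mul, abs_mul, Nat.abs_cast]
        gcongr
      have h6 := (abs_le.1 h5).1
      have h7 : (μ d : ℝ) * Nat.card (C d) * (psum (fld N (C d)) σ - Real.log (1 / σ)) =
        (μ d : ℝ) * Nat.card (C d) * psum (fld N (C d)) σ -
          (μ d : ℝ) * Nat.card (C d) * Real.log (1 / σ) := by ring
      linarith
    have h8 := Finset.sum_le_sum h3
    rw [Finset.sum_sub_distrib, ← Finset.sum_mul] at h8
    exact h8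
  have h10 : Real.log (1 / σ) ≤ (∑ d ∈ D, (μ d : ℝ) * Nat.card (C d)) * Real.log (1 / σ) := by
    nlinarith
  have h11 : Real.log (1 / σ) - (M + M') ≤ k * ∑' p, tterm T σ p := by linarith
  have hk' : (0 : ℝ) < k := by exact_mod_cast hk
  have h12 := mul_le_mul_of_nonneg_left h11 (inv_nonneg.2 hk'.le)
  rw [← mul_assoc, inv_mul_cancel₀ hk'.ne', one_mul] at h12
  linarith

end Pool.Agent.PD
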