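import Mathlib
import Pool.Agent.Lib.Helper90.GSem.LinAlg

/-!
# Linear algebra: stable subspaces of an operator with distinct eigenvalues
-/

namespace Pool.Agent.PD

open Polynomial Module Pool.Agent.GSem

section linalg

variable {K V : Type*} [Field K] [AddCommGroup V] [Module K V] [FiniteDimensional K V]

/-- The characteristic polynomial is multiplicative. -/
theorem charpoly_mul [Infinite K] (T : V →ₗ[K] V) (U : Submodule K V) (hU : U ≤ U.comap T) :
    T.charpoly = (T.restrict hU).charpoly * (U.mapQ U T hU).charpoly := by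
  apply Polynomial.funext
  intro t
  rw [eval_mul, LinearMap.eval_charpoly, LinearMap.eval_charpoly, LinearMap.eval_charpoly]
  have h : U ≤ U.comap (algebraMap K (V →ₗ[K] V) t - T) := by
    intro x hx
    rw [Submodule.mem_comap, LinearMap.sub_apply, Module.algebraMap_end_apply]
    exact U.sub_mem (U.smul_mem _ hx) (hU hx)
  rw [LinearMap.det_eq_det_mul_det U _ h]
  congr 2
  ext x
  simp

omit [FiniteDimensional K V] in
theorem mkQ_aeval (T : V →ₗ[K] V) (U : Submodule K V) (hU : U ≤ U.comap T) (P : K[X]) (x : V) :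
    U.mkQ (aeval T P x) = aeval (U.mapQ U T hU) P (U.mkQ x) := by
  have key : ∀ n : ℕ, ∀ x : V, U.mkQ ((T ^ n) x) = ((U.mapQ U T hU) ^ n) (U.mkQ x) := by
    intro n
    induction n with
    | zero => intro x; rfl
    | succ n ih =>
      intro x
      rw [pow_succ, pow_succ, Module.End.mul_apply, Module.End.mul_apply, ih]
      rfl
  induction P using Polynomial.induction_on' with
  | add P Q hP hQ =>
    rw [map_add, map_add, LinearMap.add_apply, LinearMap.add_apply, map_add, hP, hQ]
  | monomial n a =>
    rw [aeval_monomial, aeval_monomial, Module.End.mul_apply, Module.End.mul_apply,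
      Module.algebraMap_end_apply, Module.algebraMap_end_apply, map_smul, key]

omit [FiniteDimensional K V] in
theorem restrict_aeval (T : V →ₗ[K] V) (U : Submodule K V) (hU : U ≤ U.comap T) (P : K[X])
    (x : U) : ((aeval (T.restrict hU) P x : U) : V) = aeval T P (x : V) := by
  have key : ∀ n : ℕ, ∀ x : U, ((((T.restrict hU) ^ n) x : U) : V) = (T ^ n) (x : V) := by
    intro n
    induction n with
    | zero => intro x; rfl
    | succ n ih =>
      intro x
      rw [pow_succ, pow_succ, Module.End.mul_apply, Module.End.mul_apply, ih]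
      rfl
  induction P using Polynomial.induction_on' with
  | add P Q hP hQ =>
    rw [map_add, map_add, LinearMap.add_apply, LinearMap.add_apply, Submodule.coe_add, hP, hQ]
  | monomial n a =>
    rw [aeval_monomial, aeval_monomial, Module.End.mul_apply, Module.End.mul_apply,
      Module.algebraMap_end_apply, Module.algebraMap_end_apply, Submodule.coe_smul, key]

/-- Nondegeneracy on the right. -/
theorem right_nondeg (B : V →ₗ[K] V →ₗ[K] K) (hB : ∀ x, (∀ y, B x y = 0) → x = 0) (y : V)
    (hy : ∀ x, B x y = 0) : y = 0 := by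
  have hinj : Function.Injective B := by
    rw [← LinearMap.ker_eq_bot, LinearMap.ker_eq_bot']
    intro x hx
    exact hB x fun y => by rw [hx, LinearMap.zero_apply]
  have hsurj : Function.Surjective B :=
    (LinearMap.injective_iff_surjective_of_finrank_eq_finrank
      (Subspace.dual_finrank_eq (K := K) (V := V)).symm).1 hinj
  rw [← Module.forall_dual_apply_eq_zero_iff K y]
  intro f
  obtain ⟨x, rfl⟩ := hsurj f
  exact hy x

omit [FiniteDimensional K V] in
theorem adj_aeval (T S : V →ₗ[K] V) (B : V →ₗ[K] V →ₗ[K] K) (h : ∀ x y, B (T x) y = B x (S y))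
    (P : K[X]) (x y : V) : B (aeval T P x) y = B x (aeval S P y) := by
  have key : ∀ n : ℕ, ∀ x y : V, B ((T ^ n) x) y = B x ((S ^ n) y) := by
    intro n
    induction n with
    | zero => intro x y; rfl
    | succ n ih =>
      intro x y
      rw [pow_succ, pow_succ', Module.End.mul_apply, Module.End.mul_apply, ih, h]
  induction P using Polynomial.induction_on' with
  | add P Q hP hQ =>
    rw [map_add, map_add, LinearMap.add_apply, LinearMap.add_apply, map_add, map_add,
      LinearMap.add_apply, hP, hQ]
  | monomial n a =>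
    rw [aeval_monomial, aeval_monomial, Module.End.mul_apply, Module.End.mul_apply,
      Module.algebraMap_end_apply, Module.algebraMap_end_apply, map_smul, map_smul,
      LinearMap.smul_apply, key]

end linalg

section recip

variable {K : Type*} [Field K]

/-- The polynomial `X ^ d g (μ / X)`, `d` the degree of `g`. -/
noncomputable def recip (g : K[X]) (μ : K) : K[X] :=
  ∑ i ∈ Finset.range (g.natDegree + 1), C (g.coeff i * μ ^ i) * X ^ (g.natDegree - i)

theorem aeval_recip {L : Type*} [Field L] [Algebra K L] (g : K[X]) (μ : K) {β β' : L}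
    (hβ : β' * β = algebraMap K L μ) :
    aeval β (recip g μ) = β ^ g.natDegree * aeval β' g := by
  rw [recip, map_sum, aeval_eq_sum_range, Finset.mul_sum]
  refine Finset.sum_congr rfl fun i hi => ?_
  rw [Finset.mem_range] at hi
  rw [map_mul, aeval_C, map_pow, aeval_X, map_mul, map_pow, ← hβ, Algebra.smul_def]
  have h1 : β ^ g.natDegree = β ^ i * β ^ (g.natDegree - i) := by
    rw [← pow_add]
    congr 1
    omega
  rw [h1]
  ring

theorem dvd_of_roots {L : Type*} [Field L] [Algebra K L] [IsAlgClosed L] (g r : K[X])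
    (hg : g.Monic) (hsep : g.Separable) (h : ∀ β : L, aeval β g = 0 → aeval β r = 0) : g ∣ r := by
  rw [← Polynomial.map_dvd_map' (algebraMap K L)]
  by_cases hr : r.map (algebraMap K L) = 0
  · rw [hr]; exact dvd_zero _
  have hs : (g.map (algebraMap K L)).Splits := IsAlgClosed.splits _
  have hm : (g.map (algebraMap K L)).Monic := hg.map _
  rw [hs.eq_prod_roots_of_monic hm, Multiset.prod_X_sub_C_dvd_iff_le_roots hr,
    Multiset.le_iff_subset (nodup_roots hsep.map)]
  intro β hβ
  rw [mem_roots hr, IsRoot.def, eval_map_algebraMap]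
  apply h
  rw [mem_roots hm.ne_zero, IsRoot.def, eval_map_algebraMap] at hβ
  exact hβ

end recip

section main

variable {K V : Type*} [Field K] [Infinite K] [AddCommGroup V] [Module K V]
  [FiniteDimensional K V]

/-- **Key lemma.** `T` a similitude with distinct eigenvalues; if an automorphism of the algebraic
closure sends every eigenvalue `β` to `μ / β`, then no nonzero stable subspace is isotropic. -/
theorem eq_bot_of_isotropic (T T' : V →ₗ[K] V) (h1 : T * T' = 1) (h2 : T' * T = 1) (B : V →ₗ[K] V →ₗ[K] K)
    (hB : ∀ x, (∀ y, B x y = 0) → x = 0) (μ : K)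
    (hBT : ∀ x y, B (T x) (T y) = μ * B x y) (hsep : T.charpoly.Separable)
    {L : Type*} [Field L] [Algebra K L] [IsAlgClosed L] (τ : L ≃ₐ[K] L)
    (hτ : ∀ β : L, aeval β T.charpoly = 0 → τ β * β = algebraMap K L μ)
    (U : Submodule K V) (hU : ∀ x ∈ U, T x ∈ U) (hiso : ∀ x ∈ U, ∀ y ∈ U, B x y = 0) :
    U = ⊥ := by
  have hU' : U ≤ U.comap T := hU
  have hfac := charpoly_mul T U hU'
  set g := (T.restrict hU').charpoly with hg
  set h := (U.mapQ U T hU').charpoly with hh
  have hgm : g.Monic := LinearMap.charpoly_monic _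
  rw [hfac] at hsep
  have hgsep : g.Separable := hsep.of_mul_left
  obtain ⟨a, b, hab⟩ := hsep.isCoprime
  -- the reciprocal polynomial
  have hroot : ∀ β : L, aeval β g = 0 → aeval β (recip g μ) = 0 := by
    intro β hβ
    have h3 : τ β * β = algebraMap K L μ := hτ β (by rw [hfac, map_mul, hβ, zero_mul])
    rw [aeval_recip g μ h3]
    have h4 : aeval (τ β) g = 0 := by
      have := Polynomial.aeval_algHom_apply (τ : L →ₐ[K] L) β g
      rw [hβ, map_zero] at this
      exact this
    rw [h4, mul_zero]
  obtain ⟨r, hr⟩ := dvd_of_roots g (recip g μ) hgm hgsep hroot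
  -- the adjoint
  set S : V →ₗ[K] V := μ • T' with hS
  have hadj : ∀ x y, B (T x) y = B x (S y) := by
    intro x y
    have h3 : T (T' y) = y := LinearMap.congr_fun h1 y
    have h4 := hBT x (T' y)
    rw [h3] at h4
    rw [h4, hS, LinearMap.smul_apply, map_smul, smul_eq_mul]
  have hTS : T ^ g.natDegree * aeval S g = aeval T (recip g μ) := by
    rw [recip, map_sum, aeval_eq_sum_range, Finset.mul_sum]
    refine Finset.sum_congr rfl fun i hi => ?_
    rw [Finset.mem_range] at hi
    have h3 : T ^ g.natDegree = T ^ (g.natDegree - i) * T ^ i := by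
      rw [← pow_add]
      congr 1
      omega
    have h4 : T ^ i * T' ^ i = 1 := by
      have hc : Commute T T' := by
        change T * T' = T' * T
        rw [h1, h2]
      rw [← hc.mul_pow, h1, one_pow]
    rw [map_mul, aeval_C, map_pow, aeval_X, hS, _root_.smul_pow, h3, mul_smul_comm, mul_smul_comm,
      mul_assoc, h4, mul_one, smul_smul, Algebra.algebraMap_eq_smul_one, smul_mul_assoc, one_mul]
  have hkill : ∀ y ∈ U, aeval S g y = 0 := by
    intro y hy
    have h3 : aeval T (recip g μ) y = 0 := by
      rw [hr, mul_comm, map_mul, Module.End.mul_apply]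
      have h4 : aeval T g y = 0 := by
        have h5 := restrict_aeval T U hU' g ⟨y, hy⟩
        rw [hg, LinearMap.aeval_self_charpoly, LinearMap.zero_apply, ZeroMemClass.coe_zero] at h5
        exact h5.symm
      rw [h4, map_zero]
    rw [← hTS, Module.End.mul_apply] at h3
    have h5 : T' ^ g.natDegree * T ^ g.natDegree = 1 := by
      have hc : Commute T' T := by
        change T' * T = T * T'
        rw [h1, h2]
      rw [← hc.mul_pow, h2, one_pow]
    have h6 := LinearMap.congr_fun h5 (aeval S g y)
    rw [Module.End.mul_apply, h3, map_zero] at h6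
    exact h6.symm
  rw [eq_bot_iff]
  intro y hy
  rw [Submodule.mem_bot]
  apply right_nondeg B hB
  intro x
  have hx : x = aeval T g (aeval T a x) + aeval T h (aeval T b x) := by
    have h3 := congrArg (fun P : K[X] => aeval T P x) hab
    simp only [map_add, map_mul, LinearMap.add_apply, map_one, Module.End.one_apply] at h3
    rw [← Module.End.mul_apply, ← Module.End.mul_apply, ← map_mul, ← map_mul, mul_comm g a,
      mul_comm h b, map_mul, map_mul]
    exact h3.symm
  rw [hx, map_add, LinearMap.add_apply, adj_aeval T S B hadj, hkill y hy, map_zero, zero_add]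
  apply hiso _ _ y hy
  rw [← Submodule.ker_mkQ U, LinearMap.mem_ker, mkQ_aeval T U hU', hh,
    LinearMap.aeval_self_charpoly, LinearMap.zero_apply]

end main

section semisimple

variable {K V G : Type*} [Field K] [AddCommGroup V] [Module K V] [FiniteDimensional K V] [Group G]

/-- Every stable subspace has a stable complement. -/
def IsSemisimpleRep (ρ : Representation K G V) : Prop :=
  ∀ W : Submodule K V, (∀ g, ∀ x ∈ W, ρ g x ∈ W) →
    ∃ W' : Submodule K V, (∀ g, ∀ x ∈ W', ρ g x ∈ W') ∧ IsCompl W W'

theorem semisimple_of_isotropic (ρ : Representation K G V) (B : V →ₗ[K] V →ₗ[K] K) (μ : G → K)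
    (hBρ : ∀ g x y, B (ρ g x) (ρ g y) = μ g * B x y)
    (h : ∀ U : Submodule K V, (∀ g, ∀ x ∈ U, ρ g x ∈ U) →
      (∀ x ∈ U, ∀ y ∈ U, B x y = 0) → U = ⊥) : IsSemisimpleRep ρ := by
  intro W hW
  have hWp : ∀ g, ∀ x ∈ perp B W, ρ g x ∈ perp B W := by
    intro g y hy x hx
    have h1 := hBρ g (ρ g⁻¹ x) y
    have h2 : ρ g (ρ g⁻¹ x) = x := by
      have : ρ g (ρ g⁻¹ x) = (ρ g * ρ g⁻¹) x := rfl
      rw [this, ← map_mul, mul_inv_cancel, map_one]
      rfl
    rw [h2, hy _ (hW g⁻¹ x hx), mul_zero] at h1
    exact h1
  refine ⟨perp B W, hWp, isCompl_perp B W ?_⟩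
  apply h
  · intro g x hx
    exact ⟨hW g x hx.1, hWp g x hx.2⟩
  · intro x hx y hy
    exact hy.2 x hx.1

/-- A polarised representation is semisimple as soon as one element has distinct eigenvalues, all
of them sent to `μ / β` by an automorphism of the algebraic closure. -/
theorem semisimple_of_element [Infinite K] (ρ : Representation K G V) (B : V →ₗ[K] V →ₗ[K] K)
    (hB : ∀ x, (∀ y, B x y = 0) → x = 0) (μ : G → K)
    (hBρ : ∀ g x y, B (ρ g x) (ρ g y) = μ g * B x y) (g : G)
    (hsep : (ρ g).charpoly.Separable) {L : Type*} [Field L] [Algebra K L] [IsAlgClosed L]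
    (τ : L ≃ₐ[K] L)
    (hτ : ∀ β : L, aeval β (ρ g).charpoly = 0 → τ β * β = algebraMap K L (μ g)) :
    IsSemisimpleRep ρ := by
  apply semisimple_of_isotropic ρ B μ hBρ
  intro U hU hiso
  refine eq_bot_of_isotropic (ρ g) (ρ g⁻¹) ?_ ?_ B hB (μ g) (hBρ g) hsep τ hτ U (hU g) hiso
  · rw [← map_mul, mul_inv_cancel, map_one]
  · rw [← map_mul, inv_mul_cancel, map_one]

end semisimple

end Pool.Agent.PD
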